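import Pool.Agent.Helper99.AGU.Lin
import Pool.Graph.R_seed8.TH369.AG.J10
import Pool.Graph.R_seed8.H212R2.KLS.T1

set_option autoImplicit false

namespace Pool.Agent.Helper80.AGU

open MeasureTheory Matrix Pool.Agent.TH369.AG Pool.Agent.Helper99.AGU
open scoped ENNReal MatrixOrder

variable {V : Type} [Fintype V] [DecidableEq V]

theorem exists_factor {A : Matrix V V ℝ} (hA : A.PosDef) : ∃ C : Matrix V V ℝ, A = Cᴴ * C := by
  refine ⟨CFC.sqrt A, ?_⟩
  have h1 : (CFC.sqrt A).PosSemidef := (CFC.sqrt_nonneg A).posSemidef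
  rw [h1.1.eq]
  exact (CFC.sqrt_mul_sqrt_self A hA.posSemidef.nonneg).symm

theorem det_one_add {D : Matrix V V ℝ} (hD : D.PosDef) :
    (1 + D).det = ∏ i, (1 + hD.1.eigenvalues i) := by
  have h1 := hD.1.charpoly_eq
  have h2 := congrArg (fun P => Polynomial.eval (-1 : ℝ) P) h1
  simp only [Matrix.eval_charpoly, Polynomial.eval_prod, Polynomial.eval_sub, Polynomial.eval_X,
    Polynomial.eval_C] at h2
  have h3 : Matrix.scalar V (-1 : ℝ) - D = -(1 + D) := by
    ext i j
    simp [Matrix.scalar_apply, Matrix.diagonal, Matrix.one_apply]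
    split_ifs <;> ring
  rw [h3, Matrix.det_neg] at h2
  have h4 : ∏ i, (-1 - (hD.1.eigenvalues i : ℝ)) = (-1) ^ Fintype.card V *
      ∏ i, (1 + hD.1.eigenvalues i) := by
    rw [← Finset.card_univ, ← Finset.prod_const, ← Finset.prod_mul_distrib]
    exact Finset.prod_congr rfl fun i _ => by ring
  have h5 : ((-1 : ℝ)) ^ Fintype.card V ≠ 0 := by positivity
  exact mul_left_cancel₀ h5 (h2.trans h4)

theorem det_mid {A B : Matrix V V ℝ} (hA : A.PosDef) (hB : B.PosDef) :
    A.det * B.det ≤ (((1 / 2 : ℝ) • (A + B)).det) ^ 2 := by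
  obtain ⟨C, hC⟩ := exists_factor hA
  have hCd : C.det ≠ 0 := by
    intro h
    have := hA.det_pos
    rw [hC, Matrix.det_mul, h, mul_zero] at this
    exact lt_irrefl _ this
  have hCu : IsUnit C.det := isUnit_iff_ne_zero.mpr hCd
  set D : Matrix V V ℝ := (C⁻¹)ᴴ * B * C⁻¹ with hDdef
  have hD : D.PosDef := by
    apply hB.conjTranspose_mul_mul_same
    exact Matrix.mulVec_injective_of_isUnit ((Matrix.isUnit_iff_isUnit_det _).mpr
      (Matrix.isUnit_nonsing_inv_det _ hCu))
  have hB' : B = Cᴴ * D * C := by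
    rw [hDdef]
    have e1 : C⁻¹ * C = 1 := Matrix.nonsing_inv_mul _ hCu
    have e2 : Cᴴ * (C⁻¹)ᴴ = 1 := by
      rw [← Matrix.conjTranspose_mul, e1, Matrix.conjTranspose_one]
    calc B = 1 * B * 1 := by simp
      _ = (Cᴴ * (C⁻¹)ᴴ) * B * (C⁻¹ * C) := by rw [e1, e2]
      _ = _ := by simp only [Matrix.mul_assoc]
  have hsum : (1 / 2 : ℝ) • (A + B) = Cᴴ * ((1 / 2 : ℝ) • (1 + D)) * C := by
    rw [Matrix.mul_smul, Matrix.smul_mul, Matrix.mul_add, Matrix.add_mul, Matrix.mul_one, ← hC, ← hB']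
  have hct : Cᴴ.det = C.det := by
    rw [Matrix.det_conjTranspose]; simp
  have key : D.det ≤ (((1 / 2 : ℝ) • (1 + D)).det) ^ 2 := by
    rw [Matrix.det_smul, det_one_add hD, hD.1.det_eq_prod_eigenvalues, ← Finset.card_univ,
      ← Finset.prod_const, ← Finset.prod_mul_distrib, ← Finset.prod_pow]
    apply Finset.prod_le_prod
    · intro i _
      exact (hD.eigenvalues_pos i).le
    · intro i _
      have := hD.eigenvalues_pos i
      simp only [RCLike.ofReal_real_eq_id, id]
      nlinarith [sq_nonneg (1 - hD.1.eigenvalues i)]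
  have hA' : A.det = C.det ^ 2 := by
    rw [hC, Matrix.det_mul, hct]; ring
  have hB2 : B.det = C.det ^ 2 * D.det := by
    conv_lhs => rw [hB']
    rw [Matrix.det_mul, Matrix.det_mul, hct]; ring
  rw [hsum, Matrix.det_mul, Matrix.det_mul, hct, hA', hB2]
  have h0 : 0 ≤ (C.det ^ 2) ^ 2 := by positivity
  nlinarith [mul_le_mul_of_nonneg_left key h0]


/-! ### midpoint logarithmic concavity of the weight -/

theorem wA_eq (N : Net V) (hr : ∀ x, N.r x = 0) (a : V → ℝ) :
    wA N a = Real.sqrt (HM N a).det * Real.exp (-(1 / 2) * ∑ x, ∑ z, HM N a x z) := by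
  have h0 : N.r = 0 := funext hr
  unfold wA
  rw [h0]
  simp

theorem wA_mid (N : Net V) (hr : ∀ x, N.r x = 0) {a b : V → ℝ} (ha : (HM N a).PosDef)
    (hb : (HM N b).PosDef) : wA N a * wA N b ≤ wA N (fun i => (a i + b i) / 2) ^ 2 := by
  rw [wA_eq N hr, wA_eq N hr, wA_eq N hr]
  have hm := posDef_mid N ha hb
  have hS : ∑ x, ∑ z, HM N (fun i => (a i + b i) / 2) x z =
      (1 / 2) * ((∑ x, ∑ z, HM N a x z) + ∑ x, ∑ z, HM N b x z) := by
    rw [HM_mid]
    simp only [Matrix.smul_apply, Matrix.add_apply, smul_eq_mul, ← Finset.mul_sum,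
      Finset.sum_add_distrib]
  have hd := det_mid ha hb
  rw [← HM_mid] at hd
  have h1 : Real.sqrt (HM N a).det * Real.sqrt (HM N b).det ≤
      (HM N (fun i => (a i + b i) / 2)).det := by
    rw [← Real.sqrt_mul ha.det_pos.le]
    exact Real.sqrt_le_iff.mpr ⟨hm.det_pos.le, hd⟩
  rw [hS, mul_pow, Real.sq_sqrt hm.det_pos.le, ← Real.exp_nat_mul]
  have h2 : Real.exp (-(1 / 2) * ∑ x, ∑ z, HM N a x z) *
      Real.exp (-(1 / 2) * ∑ x, ∑ z, HM N b x z) =
      Real.exp (((2 : ℕ) : ℝ) * (-(1 / 2) * ((1 / 2) * ((∑ x, ∑ z, HM N a x z) +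
        ∑ x, ∑ z, HM N b x z)))) := by
    rw [← Real.exp_add]
    congr 1
    push_cast
    ring
  calc _ = (Real.sqrt (HM N a).det * Real.sqrt (HM N b).det) *
      (Real.exp (-(1 / 2) * ∑ x, ∑ z, HM N a x z) *
      Real.exp (-(1 / 2) * ∑ x, ∑ z, HM N b x z)) := by ring
    _ ≤ _ := by
      rw [h2]
      exact mul_le_mul_of_nonneg_right h1 (Real.exp_pos _).le

theorem wA_nonneg (N : Net V) (a : V → ℝ) : 0 ≤ wA N a := by
  unfold wA; positivity

/-! ### the measure -/

/-- The measure with density `wA` on the fields with positive definite matrix. -/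
noncomputable def mu (N : Net V) : Measure (V → ℝ) :=
  (volume.restrict {a : V → ℝ | (HM N a).PosDef}).withDensity fun a => ENNReal.ofReal (wA N a)

theorem IA_mu (N : Net V) (Φ : (V → ℝ) → ℝ≥0∞) (hΦ : Measurable Φ) :
    IA N Φ = ∫⁻ a, Φ a ∂(mu N) := by
  unfold IA mu
  rw [lintegral_withDensity_eq_lintegral_mul _ (J10.measurable_wA N).ennreal_ofReal hΦ]
  rfl

theorem measurable_rt (N : Net V) (o x : V) : Measurable fun a => rt N o x a :=
  (J10.measurable_inv_apply N o x).div (J10.measurable_inv_apply N o o)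

theorem measurable_Rr (N : Net V) (o x : V) : Measurable fun a => Rr N o x a :=
  (measurable_rt N o x).ennreal_ofReal

/-- The fields with `u ≥ e ^ l`. -/
def SS (N : Net V) (o x : V) (l : ℝ) : Set (V → ℝ) := {a | rt N o x a ≤ Real.exp (-l)}

theorem measurable_SS (N : Net V) (o x : V) (l : ℝ) : MeasurableSet (SS N o x l) :=
  measurableSet_le (measurable_rt N o x) measurable_const

theorem mu_apply (N : Net V) (s : Set (V → ℝ)) (hs : MeasurableSet s) :
    mu N s = ∫⁻ a, ({a : V → ℝ | (HM N a).PosDef} ∩ s).indicator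
      (fun a => ENNReal.ofReal (wA N a)) a := by
  unfold mu
  rw [withDensity_apply _ hs, Measure.restrict_restrict hs, Set.inter_comm,
    lintegral_indicator ((J4.measurableSet_pd N).inter hs)]

theorem logconc (N : Net V) (hr : ∀ x, N.r x = 0) (o x : V) (m : ℝ) :
    mu N (SS N o x (m - 2)) * mu N (SS N o x (m + 2)) ≤ mu N (SS N o x m) ^ 2 := by
  rw [mu_apply _ _ (measurable_SS N o x _), mu_apply _ _ (measurable_SS N o x _),
    mu_apply _ _ (measurable_SS N o x _)]
  have hw := (J10.measurable_wA N).ennreal_ofReal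
  have hpl := Pool.Agent.H212R2.KLS.PL (F := V → ℝ) volume (1 / 2) (by norm_num) (by norm_num)
    (({a : V → ℝ | (HM N a).PosDef} ∩ SS N o x (m - 2)).indicator
      (fun a => ENNReal.ofReal (wA N a)))
    (({a : V → ℝ | (HM N a).PosDef} ∩ SS N o x (m + 2)).indicator
      (fun a => ENNReal.ofReal (wA N a)))
    (({a : V → ℝ | (HM N a).PosDef} ∩ SS N o x m).indicator
      (fun a => ENNReal.ofReal (wA N a)))
    (hw.indicator ((J4.measurableSet_pd N).inter (measurable_SS N o x _)))
    (hw.indicator ((J4.measurableSet_pd N).inter (measurable_SS N o x _)))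
    (hw.indicator ((J4.measurableSet_pd N).inter (measurable_SS N o x _))) ?_
  · norm_num at hpl
    have h2 := pow_le_pow_left' hpl 2
    rw [mul_pow, ← ENNReal.rpow_natCast, ← ENNReal.rpow_natCast, ← ENNReal.rpow_mul,
      ← ENNReal.rpow_mul] at h2
    norm_num at h2
    exact h2
  · intro a b
    by_cases ha : a ∈ {a : V → ℝ | (HM N a).PosDef} ∩ SS N o x (m - 2)
    swap
    · rw [Set.indicator_of_notMem ha, ENNReal.zero_rpow_of_pos (by norm_num), zero_mul]
      exact zero_le
    by_cases hb : b ∈ {a : V → ℝ | (HM N a).PosDef} ∩ SS N o x (m + 2)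
    swap
    · rw [Set.indicator_of_notMem hb, ENNReal.zero_rpow_of_pos (by norm_num), mul_zero]
      exact zero_le
    have hmid : ((1 - 1 / 2 : ℝ) • a + (1 / 2 : ℝ) • b) = fun i => (a i + b i) / 2 := by
      funext i
      simp only [Pi.add_apply, Pi.smul_apply, smul_eq_mul]
      ring
    have ha1 : (HM N a).PosDef := ha.1
    have hb1 : (HM N b).PosDef := hb.1
    have hc : (fun i => (a i + b i) / 2) ∈ {a : V → ℝ | (HM N a).PosDef} ∩ SS N o x m := by
      refine ⟨posDef_mid N ha1 hb1, ?_⟩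
      have h1 := mid N o x a b ha1 hb1
      have h2 : rt N o x a ≤ Real.exp (-(m - 2)) := ha.2
      have h3 : rt N o x b ≤ Real.exp (-(m + 2)) := hb.2
      have h4 : rt N o x a * rt N o x b ≤ Real.exp (-(m - 2)) * Real.exp (-(m + 2)) :=
        mul_le_mul h2 h3 (rt_nonneg N hb1 o x) (Real.exp_pos _).le
      have h5 : Real.exp (-(m - 2)) * Real.exp (-(m + 2)) = Real.exp (-m) ^ 2 := by
        rw [← Real.exp_add, ← Real.exp_nat_mul]
        congr 1
        push_cast
        ring
      show rt N o x (fun i => (a i + b i) / 2) ≤ Real.exp (-m)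
      rw [h5] at h4
      exact le_of_sq_le_sq (h1.trans h4) (Real.exp_pos _).le
    rw [hmid, Set.indicator_of_mem ha, Set.indicator_of_mem hb, Set.indicator_of_mem hc]
    have h1 := wA_mid N hr ha1 hb1
    have e1 : (1 - 1 / 2 : ℝ) = 1 / 2 := by norm_num
    rw [e1, ← ENNReal.mul_rpow_of_nonneg _ _ (by norm_num), ← ENNReal.ofReal_mul (wA_nonneg N a),
      ENNReal.ofReal_rpow_of_nonneg (mul_nonneg (wA_nonneg N a) (wA_nonneg N b)) (by norm_num),
      ← Real.sqrt_eq_rpow]
    apply ENNReal.ofReal_le_ofReal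
    exact Real.sqrt_le_iff.mpr ⟨wA_nonneg N _, h1⟩

/-! ### two pointwise inequalities -/

theorem pw1 (r : ℝ) : (2 : ℝ≥0∞) + ((if r ≤ Real.exp (-1) then 1 else 0) +
    (if Real.exp 1 ≤ r then 1 else 0)) ≤ (ENNReal.ofReal r)⁻¹ + ENNReal.ofReal r := by
  rcases le_or_gt r 0 with h | h
  · rw [ENNReal.ofReal_of_nonpos h, ENNReal.inv_zero, top_add]
    exact le_top
  have e1 : (2.7182818283 : ℝ) < Real.exp 1 := Real.exp_one_gt_d9
  have e2 : Real.exp (-1) * Real.exp 1 = 1 := by rw [← Real.exp_add]; simp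
  have e3 : Real.exp (-1) < 0.37 := by
    have := Real.exp_pos (-1)
    nlinarith
  have key : (2 : ℝ) + ((if r ≤ Real.exp (-1) then 1 else 0) +
    (if Real.exp 1 ≤ r then 1 else 0)) ≤ r⁻¹ + r := by
    have h1 : r * r⁻¹ = 1 := mul_inv_cancel₀ h.ne'
    have h2 : 0 < r⁻¹ := inv_pos.mpr h
    by_cases c1 : r ≤ Real.exp (-1)
    · have c2 : ¬ Real.exp 1 ≤ r := by
        intro hh; linarith
      rw [if_pos c1, if_neg c2]
      have hr3 : r < 0.37 := lt_of_le_of_lt c1 e3
      have : 0 ≤ (r⁻¹ + r - 3) * r := by nlinarith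
      have := nonneg_of_mul_nonneg_left this h
      linarith
    · rw [if_neg c1]
      by_cases c2 : Real.exp 1 ≤ r
      · rw [if_pos c2]
        have hr3 : 2.7 < r := by linarith
        have : 0 ≤ (r⁻¹ + r - 3) * r := by nlinarith
        have := nonneg_of_mul_nonneg_left this h
        linarith
      · rw [if_neg c2]
        have : 0 ≤ (r⁻¹ + r - 2) * r := by nlinarith [sq_nonneg (r - 1)]
        have := nonneg_of_mul_nonneg_left this h
        linarith
  have h3 := ENNReal.ofReal_le_ofReal key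
  rw [ENNReal.ofReal_add (inv_pos.mpr h).le h.le, ENNReal.ofReal_inv_of_pos h] at h3
  refine le_trans (le_of_eq ?_) h3
  split_ifs <;> norm_num

theorem pw2 (r : ℝ) : ((ENNReal.ofReal r)⁻¹) ^ 6 ≤ ENNReal.ofReal (Real.exp 6) +
    ∑' j : ℕ, ENNReal.ofReal (Real.exp (12 * j + 18)) *
      (if r ≤ Real.exp (-(2 * (j : ℝ) + 1)) then 1 else 0) := by
  rcases le_or_gt r 0 with h | h
  · have h1 : ∀ j : ℕ, ENNReal.ofReal (Real.exp (12 * j + 18)) *
      (if r ≤ Real.exp (-(2 * (j : ℝ) + 1)) then 1 else 0) ≥ 1 := by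
      intro j
      rw [if_pos (h.trans (Real.exp_pos _).le), mul_one]
      rw [ge_iff_le, ← ENNReal.ofReal_one]
      apply ENNReal.ofReal_le_ofReal
      apply Real.one_le_exp
      positivity
    have h2 : ∑' j : ℕ, ENNReal.ofReal (Real.exp (12 * j + 18)) *
      (if r ≤ Real.exp (-(2 * (j : ℝ) + 1)) then 1 else 0) = ⊤ := by
      apply top_le_iff.mp
      calc (⊤ : ℝ≥0∞) = ∑' _ : ℕ, (1 : ℝ≥0∞) := by
            rw [ENNReal.tsum_const_eq_top_of_ne_zero one_ne_zero]
        _ ≤ _ := ENNReal.tsum_le_tsum h1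
    rw [h2, add_top]
    exact le_top
  · have hs : r = Real.exp (-(-Real.log r)) := by rw [neg_neg, Real.exp_log h]
    set s : ℝ := -Real.log r with hsdef
    have hinv : ((ENNReal.ofReal r)⁻¹) ^ 6 = ENNReal.ofReal (Real.exp (6 * s)) := by
      rw [← ENNReal.ofReal_inv_of_pos h, ← ENNReal.ofReal_pow (inv_pos.mpr h).le, hs,
        ← Real.exp_neg, ← Real.exp_nat_mul]
      congr 2
      push_cast
      ring
    rw [hinv]
    rcases le_or_gt s 1 with h1 | h1
    · exact le_trans (ENNReal.ofReal_le_ofReal (Real.exp_le_exp.mpr (by linarith))) le_self_add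
    · set j : ℕ := ⌊(s - 1) / 2⌋₊ with hj
      have hj1 : (j : ℝ) ≤ (s - 1) / 2 := Nat.floor_le (by linarith)
      have hj2 : (s - 1) / 2 < j + 1 := Nat.lt_floor_add_one _
      have hle : r ≤ Real.exp (-(2 * (j : ℝ) + 1)) := by
        rw [hs]
        apply Real.exp_le_exp.mpr
        linarith
      refine le_trans ?_ (le_trans (ENNReal.le_tsum j) le_add_self)
      rw [if_pos hle, mul_one]
      apply ENNReal.ofReal_le_ofReal
      apply Real.exp_le_exp.mpr
      linarith

/-! ### the recursion -/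

theorem recur (z s δ : ℝ) (t : ℕ → ℝ) (hz : 0 < z) (hδ : 0 < δ) (hs : z / 2 ≤ s)
    (ht : ∀ j, 0 ≤ t j) (h0 : t 0 ≤ δ * z) (hmono : ∀ j, t (j + 1) ≤ t j)
    (h1 : s * t 1 ≤ t 0 ^ 2) (h2 : ∀ j, t j * t (j + 2) ≤ t (j + 1) ^ 2) (j : ℕ) :
    t j ≤ δ * z * (2 * δ) ^ j := by
  have hs0 : 0 < s := by linarith
  have key : ∀ j, t (j + 1) * s ≤ t j * t 0 := by
    intro j
    induction j with
    | zero => nlinarith
    | succ j ih =>
      rcases (ht j).eq_or_lt with h | h
      · have h3 : t (j + 1) = 0 := le_antisymm ((hmono j).trans h.symm.le) (ht _)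
        have h4 : t (j + 2) = 0 := le_antisymm ((hmono (j + 1)).trans h3.le) (ht _)
        rw [h4, h3]; simp
      · have h3 := h2 j
        have h4 : t (j + 2) * s * t j ≤ t (j + 1) * t 0 * t j := by
          calc t (j + 2) * s * t j = s * (t j * t (j + 2)) := by ring
            _ ≤ s * t (j + 1) ^ 2 := mul_le_mul_of_nonneg_left h3 hs0.le
            _ = t (j + 1) * (t (j + 1) * s) := by ring
            _ ≤ t (j + 1) * (t j * t 0) := mul_le_mul_of_nonneg_left ih (ht _)
            _ = _ := by ring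
        exact le_of_mul_le_mul_right h4 h
  induction j with
  | zero => simpa using h0
  | succ j ih =>
    have h3 := key j
    have h4 : t (j + 1) * (z / 2) ≤ t j * (δ * z) :=
      calc t (j + 1) * (z / 2) ≤ t (j + 1) * s := mul_le_mul_of_nonneg_left hs (ht _)
        _ ≤ t j * t 0 := h3
        _ ≤ t j * (δ * z) := mul_le_mul_of_nonneg_left h0 (ht _)
    have h5 : t (j + 1) ≤ 2 * δ * t j := by
      have : t (j + 1) * (z / 2) ≤ 2 * δ * t j * (z / 2) := by nlinarith
      exact le_of_mul_le_mul_right this (by linarith)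
    calc t (j + 1) ≤ 2 * δ * t j := h5
      _ ≤ 2 * δ * (δ * z * (2 * δ) ^ j) := mul_le_mul_of_nonneg_left ih (by positivity)
      _ = _ := by rw [pow_succ]; ring

theorem mom : S_MOM := by
  intro V _ _ N hr o x hne htop hU hR
  have mR := measurable_Rr N o x
  have mU : Measurable fun a => (Rr N o x a)⁻¹ := mR.inv
  have hZ : IA N (fun _ => 1) = mu N Set.univ := by
    rw [IA_mu N _ measurable_const]; simp
  rw [hZ] at hne htop hU hR ⊢
  rw [IA_mu N _ mU] at hU
  rw [IA_mu N _ mR] at hR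
  set μ := mu N with hμ
  have hfin : IsFiniteMeasure μ := ⟨lt_top_iff_ne_top.mpr htop⟩
  set z : ℝ := (μ Set.univ).toReal with hz
  have hz0 : 0 < z := ENNReal.toReal_pos hne htop
  have hzE : μ Set.univ = ENNReal.ofReal z := (ENNReal.ofReal_toReal htop).symm
  set L : Set (V → ℝ) := {a | Real.exp 1 ≤ rt N o x a} with hL
  have mL : MeasurableSet L := measurableSet_le measurable_const (measurable_rt N o x)
  -- the first integral inequality
  have i1 : 2 * μ Set.univ + (μ (SS N o x 1) + μ L) ≤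
      (ENNReal.ofReal (1 + Real.exp (-14)) * μ Set.univ) + μ Set.univ := by
    calc 2 * μ Set.univ + (μ (SS N o x 1) + μ L)
        = ∫⁻ a, ((2 : ℝ≥0∞) + ((if rt N o x a ≤ Real.exp (-1) then 1 else 0) +
          (if Real.exp 1 ≤ rt N o x a then 1 else 0))) ∂μ := by
          have e1 : (fun a => (if rt N o x a ≤ Real.exp (-1) then (1 : ℝ≥0∞) else 0)) =
              (SS N o x 1).indicator 1 := by
            funext a
            by_cases h : rt N o x a ≤ Real.exp (-1) <;> simp [Set.indicator, SS, h]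
          have e2 : (fun a => (if Real.exp 1 ≤ rt N o x a then (1 : ℝ≥0∞) else 0)) =
              L.indicator 1 := by
            funext a
            simp [Set.indicator, hL]
          rw [lintegral_add_left measurable_const, lintegral_add_left, e1, e2,
            lintegral_indicator_one (measurable_SS N o x 1), lintegral_indicator_one mL,
            lintegral_const]
          rw [e1]
          exact measurable_one.indicator (measurable_SS N o x 1)
      _ ≤ ∫⁻ a, ((Rr N o x a)⁻¹ + Rr N o x a) ∂μ := lintegral_mono fun a => pw1 _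
      _ = (∫⁻ a, (Rr N o x a)⁻¹ ∂μ) + ∫⁻ a, Rr N o x a ∂μ := lintegral_add_left mU _
      _ ≤ _ := add_le_add hU hR
  set δ : ℝ := Real.exp (-14) with hδ
  have hδ0 : 0 < δ := Real.exp_pos _
  have i2 : 2 * z + ((μ (SS N o x 1)).toReal + (μ L).toReal) ≤ (1 + δ) * z + z := by
    have h := ENNReal.toReal_mono (by finiteness) i1
    rw [ENNReal.toReal_add (by finiteness) (by finiteness),
      ENNReal.toReal_add (by finiteness) (by finiteness),
      ENNReal.toReal_add (by finiteness) (by finiteness), ENNReal.toReal_mul, ENNReal.toReal_mul,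
      ENNReal.toReal_ofReal (by positivity)] at h
    simpa using h
  have i3 : (μ (SS N o x 1)).toReal + (μ L).toReal ≤ δ * z := by linarith
  have hδ1 : δ ≤ 1 / 2 := by
    rw [hδ]
    have e1 : Real.exp (-14) ≤ Real.exp (-1) := Real.exp_le_exp.mpr (by norm_num)
    have e2 : Real.exp (-1) * Real.exp 1 = 1 := by rw [← Real.exp_add]; simp
    have e3 := Real.exp_one_gt_d9
    have e4 := Real.exp_pos (-1)
    nlinarith
  have i4 : z / 2 ≤ (μ (SS N o x (-1))).toReal := by
    have h1 : μ Set.univ ≤ μ (SS N o x (-1)) + μ L := by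
      refine le_trans (measure_mono ?_) (measure_union_le _ _)
      intro a _
      rcases le_total (rt N o x a) (Real.exp 1) with h | h
      · left
        show rt N o x a ≤ Real.exp (- -1)
        rwa [neg_neg]
      · exact Or.inr h
    have h2 := ENNReal.toReal_mono (by finiteness) h1
    rw [ENNReal.toReal_add (by finiteness) (by finiteness)] at h2
    have h3 : 0 ≤ (μ (SS N o x 1)).toReal := ENNReal.toReal_nonneg
    have h4 : (μ L).toReal ≤ δ * z := by linarith
    have h5 : δ * z ≤ 1 / 2 * z := mul_le_mul_of_nonneg_right hδ1 hz0.le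
    linarith
  have lc : ∀ m : ℝ, (μ (SS N o x (m - 2))).toReal * (μ (SS N o x (m + 2))).toReal ≤
      (μ (SS N o x m)).toReal ^ 2 := by
    intro m
    have h := ENNReal.toReal_mono (by finiteness) (logconc N hr o x m)
    rwa [ENNReal.toReal_mul, ENNReal.toReal_pow] at h
  have hrec := recur z (μ (SS N o x (-1))).toReal δ
    (fun j => (μ (SS N o x (2 * (j : ℝ) + 1))).toReal) hz0 hδ0 i4
    (fun j => ENNReal.toReal_nonneg) ?_ ?_ ?_ ?_
  rotate_left
  · have h3 : 0 ≤ (μ L).toReal := ENNReal.toReal_nonneg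
    simp only [Nat.cast_zero, mul_zero, zero_add]
    linarith
  · intro j
    apply ENNReal.toReal_mono (by finiteness)
    apply measure_mono
    intro a ha
    refine le_trans ha (Real.exp_le_exp.mpr ?_)
    push_cast
    linarith
  · have h := lc 1
    norm_num at h ⊢
    convert h using 3
  · intro j
    have h := lc (2 * (j : ℝ) + 3)
    convert h using 5
    · ring
    · push_cast; ring
    · push_cast; ring
  -- the sixth moment
  have hterm : ∀ j : ℕ, ENNReal.ofReal (Real.exp (12 * j + 18)) * μ (SS N o x (2 * (j : ℝ) + 1)) ≤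
      ENNReal.ofReal (Real.exp 4 * z * (2 * Real.exp (-2)) ^ j) := by
    intro j
    rw [← ENNReal.ofReal_toReal (measure_ne_top μ (SS N o x (2 * (j : ℝ) + 1))),
      ← ENNReal.ofReal_mul (Real.exp_pos _).le]
    apply ENNReal.ofReal_le_ofReal
    refine le_trans (mul_le_mul_of_nonneg_left (hrec j) (Real.exp_pos _).le) (le_of_eq ?_)
    have e1 : Real.exp (12 * (j : ℝ) + 18) = Real.exp 18 * Real.exp 12 ^ j := by
      rw [← Real.exp_nat_mul, ← Real.exp_add]
      congr 1
      ring
    have e2 : Real.exp 18 * δ = Real.exp 4 := by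
      rw [hδ, ← Real.exp_add]; norm_num
    have e3 : Real.exp 12 * (2 * δ) = 2 * Real.exp (-2) := by
      have : Real.exp 12 * δ = Real.exp (-2) := by
        rw [hδ, ← Real.exp_add]; norm_num
      linarith
    rw [e1]
    calc Real.exp 18 * Real.exp 12 ^ j * (δ * z * (2 * δ) ^ j)
        = (Real.exp 18 * δ) * z * (Real.exp 12 * (2 * δ)) ^ j := by rw [mul_pow]; ring
      _ = _ := by rw [e2, e3]
  have e1 := Real.exp_one_gt_d9
  have e1' := Real.exp_one_lt_d9
  have e2 : Real.exp (-2) * Real.exp 1 ^ 2 = 1 := by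
    rw [← Real.exp_nat_mul, ← Real.exp_add]; norm_num
  have e2p : 0 < Real.exp (-2) := Real.exp_pos _
  have e3 : Real.exp (-2) < 0.14 := by nlinarith
  have hq0 : 0 ≤ 2 * Real.exp (-2) := by positivity
  have hq1 : 2 * Real.exp (-2) < 1 := by linarith
  have hsum : ∑' j : ℕ, ENNReal.ofReal (Real.exp (12 * j + 18)) *
      μ (SS N o x (2 * (j : ℝ) + 1)) ≤ ENNReal.ofReal (Real.exp 4 * z * (1 - 2 * Real.exp (-2))⁻¹) := by
    refine le_trans (ENNReal.tsum_le_tsum hterm) (le_of_eq ?_)
    rw [← tsum_geometric_of_lt_one hq0 hq1, ← tsum_mul_left,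
      ENNReal.ofReal_tsum_of_nonneg (fun j => by positivity)
        ((summable_geometric_of_lt_one hq0 hq1).mul_left _)]
  rw [IA_mu N _ (mU.pow_const 6), ← hμ]
  calc ∫⁻ a, ((Rr N o x a)⁻¹) ^ 6 ∂μ
      ≤ ∫⁻ a, (ENNReal.ofReal (Real.exp 6) + ∑' j : ℕ, ENNReal.ofReal (Real.exp (12 * j + 18)) *
      (if rt N o x a ≤ Real.exp (-(2 * (j : ℝ) + 1)) then 1 else 0)) ∂μ :=
        lintegral_mono fun a => pw2 _
    _ = ENNReal.ofReal (Real.exp 6) * μ Set.univ +
        ∑' j : ℕ, ENNReal.ofReal (Real.exp (12 * j + 18)) * μ (SS N o x (2 * (j : ℝ) + 1)) := by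
      have e1 : ∀ j : ℕ, (fun a => (if rt N o x a ≤ Real.exp (-(2 * (j : ℝ) + 1)) then (1 : ℝ≥0∞)
          else 0)) = (SS N o x (2 * (j : ℝ) + 1)).indicator 1 := by
        intro j
        funext a
        simp [Set.indicator, SS]
      have mm : ∀ j : ℕ, Measurable fun a => (if rt N o x a ≤ Real.exp (-(2 * (j : ℝ) + 1)) then
          (1 : ℝ≥0∞) else 0) := by
        intro j
        rw [e1 j]
        exact measurable_one.indicator (measurable_SS N o x _)
      rw [lintegral_add_left measurable_const, lintegral_const,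
        lintegral_tsum fun j => ((mm j).const_mul _).aemeasurable]
      congr 1
      apply tsum_congr
      intro j
      rw [lintegral_const_mul _ (mm j), e1 j, lintegral_indicator_one (measurable_SS N o x _)]
    _ ≤ ENNReal.ofReal (Real.exp 6 * z) + ENNReal.ofReal (Real.exp 4 * z *
        (1 - 2 * Real.exp (-2))⁻¹) := by
      rw [hzE, ← ENNReal.ofReal_mul (Real.exp_pos _).le]
      exact add_le_add le_rfl hsum
    _ = ENNReal.ofReal (Real.exp 6 * z + Real.exp 4 * z * (1 - 2 * Real.exp (-2))⁻¹) := by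
      rw [ENNReal.ofReal_add (by positivity)]
      have : 0 ≤ (1 - 2 * Real.exp (-2))⁻¹ := inv_nonneg.mpr (by linarith)
      positivity
    _ ≤ ENNReal.ofReal (Real.exp 7 * z) := by
      apply ENNReal.ofReal_le_ofReal
      have h1 : (1 - 2 * Real.exp (-2))⁻¹ ≤ 2 := by
        rw [inv_le_comm₀ (by linarith) (by norm_num)]
        linarith
      have h6 : Real.exp 6 = Real.exp 4 * Real.exp 1 ^ 2 := by
        rw [← Real.exp_nat_mul, ← Real.exp_add]; norm_num
      have h7 : Real.exp 7 = Real.exp 4 * Real.exp 1 ^ 3 := by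
        rw [← Real.exp_nat_mul, ← Real.exp_add]; norm_num
      have h8 : Real.exp 1 ^ 2 + 2 ≤ Real.exp 1 ^ 3 := by nlinarith [sq_nonneg (Real.exp 1)]
      have h4 : 0 < Real.exp 4 * z := by positivity
      rw [h6, h7]
      calc Real.exp 4 * Real.exp 1 ^ 2 * z + Real.exp 4 * z * (1 - 2 * Real.exp (-2))⁻¹
          ≤ Real.exp 4 * Real.exp 1 ^ 2 * z + Real.exp 4 * z * 2 := by
            have := mul_le_mul_of_nonneg_left h1 h4.le
            linarith
        _ = Real.exp 4 * z * (Real.exp 1 ^ 2 + 2) := by ring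
        _ ≤ Real.exp 4 * z * Real.exp 1 ^ 3 := mul_le_mul_of_nonneg_left h8 h4.le
        _ = _ := by ring
    _ = _ := by rw [hzE, ← ENNReal.ofReal_mul (Real.exp_pos _).le]

end Pool.Agent.Helper80.AGU
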